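import Pool.Agent.L0h32.UX.Stm

/-!
# Project UX: the module ALL (all layers)
-/

set_option autoImplicit false
set_option linter.all false

namespace Pool.Agent.L0h36.UX

open Relation
open Pool.Agent.L0h32.UX
open Pool.Agent.H630R2.LA (LimAut Sym Cfg Step init initTape WS lrel bitS ix nr Ann keep)

section

variable {A : Type} (h : ℕ) (rel : A → Fin (2 ^ h) → Fin (2 ^ h) → Bool) (p0 : Fin (2 ^ h))
  (facc : Fin (2 ^ h) → Bool) (K : ℕ) (W : ℕ → ℕ → Fin (2 ^ h) → Fin (2 ^ h) → ℕ)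

/-- One weight function, all its layers: either the end is reached, or the next weight function starts. -/
theorem oneW (hL : S_LYR) (w : List A) (t : ℕ) (τ : ℕ → Sym (WS A)) (ht : t ≤ w.length)
    (hA : Ann h rel p0 w τ (min (t + 1) w.length)) (x : Wr) (fin : Bool) (i0 : ℕ) (hi0 : i0 < K)
    (hg : ∀ l ≤ LL h x fin, ∀ q, Uq h rel p0 W w (t + 1 - EE h x fin) i0 l q) (i : ℕ) (hi : i ≤ i0)
    (n : ℕ) : ∀ m : Mem, MOK h rel p0 facc K W w t m → m.x = x → m.fin = fin → m.i = i → m.y = 0 →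
      m.z = 0 → m.l ≤ LL h x fin → LL h x fin - m.l = n →
      (∃ m' : Mem, MOK h rel p0 facc K W w t m' ∧ m'.x = x ∧ m'.fin = fin ∧ m'.l = Ly h m' ∧
        ReflTransGen (RS h rel p0 facc K W τ (t + 1)) (.hm m, t) (.hm m', t)) ∨
      (i < i0 ∧ ReflTransGen (RS h rel p0 facc K W τ (t + 1)) (.hm m, t)
        (.hm (mem0 h p0 facc x fin (i + 1)), t)) := by
  induction n with
  | zero =>
    intro m hm hx hf hmi hy hz hl hn
    left
    refine ⟨m, hm, hx, hf, ?_, ReflTransGen.refl⟩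
    show m.l = LL h m.x m.fin
    rw [hx, hf]
    omega
  | succ n ih =>
    intro m hm hx hf hmi hy hz hl hn
    have hLy : Ly h m = LL h x fin := by
      show LL h m.x m.fin = LL h x fin
      rw [hx, hf]
    have hbt : bt h t m = t + 1 - EE h x fin := by
      show t + 1 - EE h m.x m.fin = t + 1 - EE h x fin
      rw [hx, hf]
    have hlt : m.l < Ly h m := by
      rw [hLy]
      omega
    obtain ⟨h1, h2⟩ := hL A h rel p0 facc K W w t τ ht hA m hm hlt hy hz
    by_cases hU : ∀ q, Uq h rel p0 W w (bt h t m) m.i (m.l + 1) q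
    · obtain ⟨m', hm', hx', hf', hi', hl', hy', hz', hr⟩ := h1 hU
      rcases ih m' hm' (hx'.trans hx) (hf'.trans hf) (hi'.trans hmi) hy' hz'
        (by rw [hl']; omega) (by rw [hl']; omega) with ⟨m'', a, b, c, d, e⟩ | ⟨a, b⟩
      · exact Or.inl ⟨m'', a, b, c, d, hr.trans e⟩
      · exact Or.inr ⟨a, hr.trans b⟩
    · have hne : i ≠ i0 := by
        rintro rfl
        apply hU
        intro q
        rw [hbt, hmi]
        exact hg (m.l + 1) (by omega) q
      have hlt' : i < i0 := by omega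
      refine Or.inr ⟨hlt', ?_⟩
      have := h2 hU (by rw [hmi]; omega)
      rw [hx, hf, hmi] at this
      exact this

/-- From the weight function `i`, if `i0 - i = n`. -/
theorem manyW (hL : S_LYR) (hM : S_MV0) (w : List A) (t : ℕ) (τ : ℕ → Sym (WS A)) (ht : t ≤ w.length)
    (hA : Ann h rel p0 w τ (min (t + 1) w.length)) (x : Wr) (fin : Bool)
    (hW : WOK h rel p0 w t x) (hf0 : fin = false → t < w.length) (hf1 : fin = true → t = w.length)
    (i0 : ℕ) (hi0 : i0 < K)
    (hg : ∀ l ≤ LL h x fin, ∀ q, Uq h rel p0 W w (t + 1 - EE h x fin) i0 l q) (n : ℕ) :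
    ∀ i : ℕ, i ≤ i0 → i0 - i = n →
      ∃ m' : Mem, MOK h rel p0 facc K W w t m' ∧ m'.x = x ∧ m'.fin = fin ∧ m'.l = Ly h m' ∧
        ReflTransGen (RS h rel p0 facc K W τ (t + 1)) (.hm (mem0 h p0 facc x fin i), t) (.hm m', t) := by
  induction n with
  | zero =>
    intro i hi hn
    have hm := hM A h rel p0 facc K W w t i x fin (by omega) hW hf0 hf1
    rcases oneW h rel p0 facc K W hL w t τ ht hA x fin i0 hi0 hg i hi _ (mem0 h p0 facc x fin i) hm
      rfl rfl rfl rfl rfl (Nat.zero_le _) rfl with h1 | ⟨h1, h2⟩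
    · exact h1
    · omega
  | succ n ih =>
    intro i hi hn
    have hm := hM A h rel p0 facc K W w t i x fin (by omega) hW hf0 hf1
    rcases oneW h rel p0 facc K W hL w t τ ht hA x fin i0 hi0 hg i hi _ (mem0 h p0 facc x fin i) hm
      rfl rfl rfl rfl rfl (Nat.zero_le _) rfl with h1 | ⟨h1, h2⟩
    · exact h1
    · obtain ⟨m', a, b, c, d, e⟩ := ih (i + 1) (by omega) (by omega)
      exact ⟨m', a, b, c, d, h2.trans e⟩

end

theorem t_ALL (hL : S_LYR) (hM : S_MV0) : S_ALL := by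
  intro A h rel p0 facc K W w t τ ht hA x fin hW hf0 hf1 hex
  obtain ⟨i0, hi0, hg⟩ := hex
  exact manyW h rel p0 facc K W hL hM w t τ ht hA x fin hW hf0 hf1 i0 hi0 hg i0 0 (Nat.zero_le _)
    (Nat.sub_zero _)

end Pool.Agent.L0h36.UX
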